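import Pool.Agent.Lib.MP_35a676_lc.Defs

/-!
# The almost disjointness number
-/

namespace Pool.Agent.Lib.MP_35a676_lc

open Cardinal Set

/-- An almost disjoint family of infinite subsets of `ℕ`. -/
def AlmostDisjoint (𝒟 : Set (Set ℕ)) : Prop :=
  (∀ D ∈ 𝒟, D.Infinite) ∧ ∀ D ∈ 𝒟, ∀ E ∈ 𝒟, D ≠ E → (D ∩ E).Finite

/-- A maximal almost disjoint family. -/
def MaxAlmostDisjoint (𝒟 : Set (Set ℕ)) : Prop :=
  AlmostDisjoint 𝒟 ∧ ∀ ℰ : Set (Set ℕ), AlmostDisjoint ℰ → 𝒟 ⊆ ℰ → ℰ = 𝒟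

/-- The almost disjointness number `𝔞`: the least size of an infinite maximal almost disjoint
family. -/
noncomputable def aNum : Cardinal.{0} :=
  sInf {κ | ∃ 𝒟 : Set (Set ℕ), 𝒟.Infinite ∧ MaxAlmostDisjoint 𝒟 ∧ #𝒟 = κ}

theorem aNum_le_continuum : aNum ≤ 𝔠 := by
  rcases Set.eq_empty_or_nonempty
    {κ : Cardinal.{0} | ∃ 𝒟 : Set (Set ℕ), 𝒟.Infinite ∧ MaxAlmostDisjoint 𝒟 ∧ #𝒟 = κ}
    with h | ⟨κ, hκ⟩
  · unfold aNum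
    rw [h, Cardinal.sInf_empty]
    exact bot_le
  · refine (csInf_le' hκ).trans ?_
    obtain ⟨𝒟, _, _, rfl⟩ := hκ
    exact mk_le_continuum 𝒟

end Pool.Agent.Lib.MP_35a676_lc
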