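import Pool.Agent.Lib.MP_35a676_lc.Defs

/-!
# Branches, counting, and the local structure of small families
-/

namespace Pool.Agent.Lib.MP_35a676_lc

open Cardinal Set

/-- The code of the restriction of `x` to its first `n` values. -/
def code (x : ℕ → Bool) (n : ℕ) : ℕ := Encodable.encode (List.ofFn (fun i : Fin n => x i))

/-- The set of codes of the initial segments of `x`. -/
def branch (x : ℕ → Bool) : Set ℕ := range (code x)

theorem code_inj {x y : ℕ → Bool} {m n : ℕ} (h : code x m = code y n) :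
    m = n ∧ ∀ i < m, x i = y i := by
  have h1 := Encodable.encode_injective h
  have h2 : m = n := by
    have := congrArg List.length h1
    simpa using this
  subst h2
  refine ⟨rfl, fun i hi => ?_⟩
  have h3 := List.ofFn_injective h1
  exact congrFun h3 ⟨i, hi⟩

theorem branch_infinite (x : ℕ → Bool) : (branch x).Infinite :=
  infinite_range_of_injective (fun _ _ h => (code_inj h).1)

theorem branch_inter_finite {x y : ℕ → Bool} (h : x ≠ y) : (branch x ∩ branch y).Finite := by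
  obtain ⟨N, hN⟩ := Function.ne_iff.1 h
  refine ((finite_lt_nat (N + 1)).image (code x)).subset ?_
  rintro z ⟨⟨m, rfl⟩, ⟨n, hn⟩⟩
  refine ⟨m, ?_, rfl⟩
  by_contra hm
  have hm' : N < m := by
    simp only [mem_ofPred_eq, not_lt] at hm
    omega
  obtain ⟨_, h2⟩ := code_inj hn.symm
  exact hN (h2 N hm')

theorem lt_continuum_no_inj {𝒜 : Set (Set ℕ)} (hlt : #𝒜 < 𝔠)
    (a : (ℕ → Bool) → Set ℕ) (F : (ℕ → Bool) → Finset (Set ℕ)) (ha : ∀ x, a x ∈ 𝒜)
    (hF : ∀ x, (F x : Set (Set ℕ)) ⊆ 𝒜) (hinj : ∀ x y, a x = a y → F x = F y → x = y) :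
    False := by
  classical
  by_cases hinf : 𝒜.Infinite
  · exact absurd (continuum_le_of_inj hinf a F ha hF hinj) (not_le.2 hlt)
  · rw [Set.not_infinite] at hinf
    have hfin : Finite 𝒜 := hinf.to_subtype
    let G : (ℕ → Bool) → 𝒜 × Set 𝒜 := fun x => (⟨a x, ha x⟩, {B | (B : Set ℕ) ∈ F x})
    have hG : Function.Injective G := by
      intro x y hxy
      have h1 : a x = a y := congrArg (fun q => ((q.1 : 𝒜) : Set ℕ)) hxy
      have h2 : {B : 𝒜 | (B : Set ℕ) ∈ F x} = {B : 𝒜 | (B : Set ℕ) ∈ F y} :=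
        congrArg (fun q => q.2) hxy
      refine hinj x y h1 ?_
      ext B
      constructor
      · intro hB
        have h3 : (⟨B, hF x hB⟩ : 𝒜) ∈ {B : 𝒜 | (B : Set ℕ) ∈ F x} := hB
        rw [h2] at h3
        exact h3
      · intro hB
        have h3 : (⟨B, hF y hB⟩ : 𝒜) ∈ {B : 𝒜 | (B : Set ℕ) ∈ F y} := hB
        rw [← h2] at h3
        exact h3
    exact not_injective_infinite_finite G hG

/-- The local structure theorem. -/
theorem exists_local {𝒜 : Set (Set ℕ)} (h : MaxIdealIndep 𝒜) (hlt : #𝒜 < 𝔠) (A : ℕ → Set ℕ)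
    (hA : ∀ n, A n ∈ 𝒜) (hinj : Function.Injective A) :
    ∃ S : Set ℕ, S.Infinite ∧ ∀ X : Set ℕ, X ⊆ {z | ∃ n ∈ S, z ∈ A n ∧ ∀ m < n, z ∉ A m} →
      ((∀ F : Finset (Set ℕ), (F : Set (Set ℕ)) ⊆ 𝒜 → (X \ ⋃₀ (F : Set (Set ℕ))).Infinite) ↔
        {n | n ∈ S ∧ ∃ F : Finset (Set ℕ), (F : Set (Set ℕ)) ⊆ 𝒜 \ {A n} ∧
          ((A n \ ⋃₀ (F : Set (Set ℕ))) \ X).Finite}.Infinite) := by
  classical
  let C : Set ℕ → Set ℕ := fun S => {z | ∃ n ∈ S, z ∈ A n ∧ ∀ m < n, z ∉ A m}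
  have hC : ∀ S T : Set ℕ, C S ∩ C T ⊆ ⋃ n ∈ S ∩ T, A n := by
    rintro S T z ⟨⟨n, hn, hzn, hnm⟩, ⟨n', hn', hzn', hnm'⟩⟩
    have hnn : n = n' := by
      rcases lt_trichotomy n n' with hl | hl | hl
      · exact absurd hzn (hnm' n hl)
      · exact hl
      · exact absurd hzn' (hnm n' hl)
    subst hnn
    simp only [mem_iUnion]
    exact ⟨n, ⟨hn, hn'⟩, hzn⟩
  have key : ∃ x : ℕ → Bool, ∀ B ∈ 𝒜, B ∉ range A → ∀ F : Finset (Set ℕ),
      (F : Set (Set ℕ)) ⊆ 𝒜 \ {B} → ((B \ ⋃₀ (F : Set (Set ℕ))) \ C (branch x)).Infinite := by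
    by_contra hcon
    push Not at hcon
    choose B hB hBA F hF hfin using hcon
    refine lt_continuum_no_inj hlt B (fun _ => ∅) hB (by simp) ?_
    intro x y hxy _
    by_contra hne
    have hfinI := branch_inter_finite hne
    let H : Finset (Set ℕ) := (F x ∪ F y) ∪ hfinI.toFinset.image A
    have hH : (H : Set (Set ℕ)) ⊆ 𝒜 \ {B x} := by
      intro D hD
      simp only [H, Finset.mem_coe, Finset.mem_union, Finset.mem_image,
        Finite.mem_toFinset] at hD
      rcases hD with (hD | hD) | ⟨n, _, rfl⟩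
      · exact hF x hD
      · exact hxy ▸ hF y hD
      · exact ⟨hA n, fun h3 => hBA x ⟨n, h3⟩⟩
    have h1 : ((B x \ ⋃₀ (F x : Set (Set ℕ))) \ C (branch x)).Finite := hfin x
    have h2 : ((B x \ ⋃₀ (F y : Set (Set ℕ))) \ C (branch y)).Finite := by
      rw [hxy]
      exact hfin y
    refine h.1.2 (B x) (hB x) H hH ((h1.union h2).subset ?_)
    rintro z ⟨hz, hzH⟩
    have hz1 : z ∉ ⋃₀ (F x : Set (Set ℕ)) := by
      rintro ⟨D, hD, hzD⟩
      refine hzH ⟨D, ?_, hzD⟩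
      simp only [H, Finset.mem_coe, Finset.mem_union]
      exact Or.inl (Or.inl hD)
    have hz2 : z ∉ ⋃₀ (F y : Set (Set ℕ)) := by
      rintro ⟨D, hD, hzD⟩
      refine hzH ⟨D, ?_, hzD⟩
      simp only [H, Finset.mem_coe, Finset.mem_union]
      exact Or.inl (Or.inr hD)
    by_cases hzx : z ∈ C (branch x)
    · refine Or.inr ⟨⟨hz, hz2⟩, fun hzy => hzH ?_⟩
      have h4 := hC _ _ ⟨hzx, hzy⟩
      simp only [mem_iUnion] at h4
      obtain ⟨n, hn, hzn⟩ := h4
      refine ⟨A n, ?_, hzn⟩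
      simp only [H, Finset.mem_coe, Finset.mem_union, Finset.mem_image, Finite.mem_toFinset]
      exact Or.inr ⟨n, hn, rfl⟩
    · exact Or.inl ⟨⟨hz, hz1⟩, hzx⟩
  obtain ⟨x, hx⟩ := key
  refine ⟨branch x, branch_infinite x, ?_⟩
  intro X hX
  constructor
  · intro hpos hTfin
    let T : Set ℕ := {n | n ∈ branch x ∧ ∃ F : Finset (Set ℕ), (F : Set (Set ℕ)) ⊆ 𝒜 \ {A n} ∧
          ((A n \ ⋃₀ (F : Set (Set ℕ))) \ X).Finite}
    have hT : T.Finite := hTfin
    let X' : Set ℕ := {z | z ∈ X ∧ ∀ n ∈ T, z ∉ A n}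
    have hX' : ∀ F : Finset (Set ℕ), (F : Set (Set ℕ)) ⊆ 𝒜 →
        (X' \ ⋃₀ (F : Set (Set ℕ))).Infinite := by
      intro F hF
      have h1 : ((F ∪ hT.toFinset.image A : Finset (Set ℕ)) : Set (Set ℕ)) ⊆ 𝒜 := by
        intro D hD
        simp only [Finset.mem_coe, Finset.mem_union, Finset.mem_image] at hD
        rcases hD with hD | ⟨n, _, rfl⟩
        · exact hF hD
        · exact hA n
      refine (hpos _ h1).mono ?_
      rintro z ⟨hz, hzF⟩
      refine ⟨⟨hz, fun n hn hzn => hzF ?_⟩, fun hzF' => hzF ?_⟩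
      · refine ⟨A n, ?_, hzn⟩
        simp only [Finset.mem_coe, Finset.mem_union, Finset.mem_image, Finite.mem_toFinset]
        exact Or.inr ⟨n, hn, rfl⟩
      · obtain ⟨D, hD, hzD⟩ := hzF'
        refine ⟨D, ?_, hzD⟩
        simp only [Finset.mem_coe, Finset.mem_union]
        exact Or.inl hD
    obtain ⟨B, hB, F, hF, hfin⟩ := max_cover h hX'
    have hBr : B ∈ range A := by
      by_contra hBr
      refine hx B hB hBr F hF (hfin.subset ?_)
      rintro z ⟨hz, hzC⟩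
      exact ⟨hz, fun hzX => hzC (hX hzX.1)⟩
    obtain ⟨n, rfl⟩ := hBr
    by_cases hnS : n ∈ branch x
    · have hnT : n ∈ T := by
        refine ⟨hnS, F, hF, hfin.subset ?_⟩
        rintro z ⟨hz, hzX⟩
        exact ⟨hz, fun h3 => hzX h3.1⟩
      refine h.1.2 (A n) (hA n) F hF (hfin.subset ?_)
      rintro z ⟨hz, hzF⟩
      exact ⟨⟨hz, hzF⟩, fun h3 => h3.2 n hnT hz⟩
    · have h1 : ((F ∪ (Finset.range n).image A : Finset (Set ℕ)) : Set (Set ℕ)) ⊆
          𝒜 \ {A n} := by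
        intro D hD
        simp only [Finset.mem_coe, Finset.mem_union, Finset.mem_image, Finset.mem_range] at hD
        rcases hD with hD | ⟨m, hm, rfl⟩
        · exact hF hD
        · refine ⟨hA m, fun h3 => ?_⟩
          have := hinj h3
          omega
      refine h.1.2 (A n) (hA n) _ h1 (hfin.subset ?_)
      rintro z ⟨hz, hzF⟩
      refine ⟨⟨hz, fun h3 => hzF ?_⟩, fun h3 => ?_⟩
      · obtain ⟨D, hD, hzD⟩ := h3
        refine ⟨D, ?_, hzD⟩
        simp only [Finset.mem_coe, Finset.mem_union]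
        exact Or.inl hD
      · obtain ⟨n', hn', hzn', hnm'⟩ := hX h3.1
        have hne : n' ≠ n := fun h4 => hnS (h4 ▸ hn')
        have hlt' : n' < n := by
          by_contra h5
          have h6 : n < n' := by omega
          exact hnm' n h6 hz
        refine hzF ⟨A n', ?_, hzn'⟩
        simp only [Finset.mem_coe, Finset.mem_union, Finset.mem_image, Finset.mem_range]
        exact Or.inr ⟨n', hlt', rfl⟩
  · intro hT F hF hfin
    obtain ⟨n, hnT, hnF⟩ : ∃ n ∈ {n | n ∈ branch x ∧ ∃ F : Finset (Set ℕ),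
        (F : Set (Set ℕ)) ⊆ 𝒜 \ {A n} ∧ ((A n \ ⋃₀ (F : Set (Set ℕ))) \ X).Finite},
        A n ∉ F := by
      by_contra hcon
      push Not at hcon
      refine hT ((F.finite_toSet.preimage hinj.injOn).subset ?_)
      intro n hn
      exact hcon n hn
    obtain ⟨_, G, hG, hGfin⟩ := hnT
    have h1 : ((G ∪ F : Finset (Set ℕ)) : Set (Set ℕ)) ⊆ 𝒜 \ {A n} := by
      intro D hD
      simp only [Finset.mem_coe, Finset.mem_union] at hD
      rcases hD with hD | hD
      · exact hG hD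
      · exact ⟨hF hD, fun h3 => hnF (h3 ▸ hD)⟩
    refine h.1.2 (A n) (hA n) _ h1 ((hGfin.union hfin).subset ?_)
    rintro z ⟨hz, hzF⟩
    have hz1 : z ∉ ⋃₀ (G : Set (Set ℕ)) := by
      rintro ⟨D, hD, hzD⟩
      refine hzF ⟨D, ?_, hzD⟩
      simp only [Finset.mem_coe, Finset.mem_union]
      exact Or.inl hD
    have hz2 : z ∉ ⋃₀ (F : Set (Set ℕ)) := by
      rintro ⟨D, hD, hzD⟩
      refine hzF ⟨D, ?_, hzD⟩
      simp only [Finset.mem_coe, Finset.mem_union]
      exact Or.inr hD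
    by_cases hzX : z ∈ X
    · exact Or.inr ⟨hzX, hz2⟩
    · exact Or.inl ⟨⟨hz, hz1⟩, hzX⟩

end Pool.Agent.Lib.MP_35a676_lc
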