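import Mathlib

/-!
# Maximal ideal independent families: definitions and the covering lemma
-/

namespace Pool.Agent.Lib.MP_35a676_lc

open Cardinal Set

/-- `𝒜` is an ideal independent family: its members are infinite subsets of `ℕ`, and for every
member `A` and all finitely many other members, `A` minus their union is infinite. -/
def IdealIndep (𝒜 : Set (Set ℕ)) : Prop :=
  (∀ A ∈ 𝒜, A.Infinite) ∧
    ∀ A ∈ 𝒜, ∀ F : Finset (Set ℕ), (F : Set (Set ℕ)) ⊆ 𝒜 \ {A} →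
      (A \ ⋃₀ (F : Set (Set ℕ))).Infinite

/-- `𝒜` is a maximal ideal independent family. -/
def MaxIdealIndep (𝒜 : Set (Set ℕ)) : Prop :=
  IdealIndep 𝒜 ∧ ∀ ℬ : Set (Set ℕ), IdealIndep ℬ → 𝒜 ⊆ ℬ → ℬ = 𝒜

/-- `X` is positive for the ideal generated by the members of `𝒜` other than `A` and the finite
sets: `X` is not covered, up to a finite set, by finitely many members of `𝒜` other than `A`. -/
def Pos (𝒜 : Set (Set ℕ)) (A X : Set ℕ) : Prop :=
  ∀ F : Finset (Set ℕ), (F : Set (Set ℕ)) ⊆ 𝒜 \ {A} → (X \ ⋃₀ (F : Set (Set ℕ))).Infinite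

theorem Pos.mono {𝒜 : Set (Set ℕ)} {A X Y : Set ℕ} (h : Pos 𝒜 A X) (hXY : X ⊆ Y) :
    Pos 𝒜 A Y := fun F hF => (h F hF).mono (sdiff_subset_sdiff_left hXY)

theorem not_pos_iff {𝒜 : Set (Set ℕ)} {A X : Set ℕ} : ¬ Pos 𝒜 A X ↔
    ∃ F : Finset (Set ℕ), (F : Set (Set ℕ)) ⊆ 𝒜 \ {A} ∧ (X \ ⋃₀ (F : Set (Set ℕ))).Finite := by
  unfold Pos
  push Not
  constructor
  · rintro ⟨F, hF, h⟩
    exact ⟨F, hF, by simpa [Set.not_infinite] using h⟩
  · rintro ⟨F, hF, h⟩
    exact ⟨F, hF, by simpa [Set.not_infinite] using h⟩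

theorem not_pos_union {𝒜 : Set (Set ℕ)} {A X Y : Set ℕ} (hX : ¬ Pos 𝒜 A X)
    (hY : ¬ Pos 𝒜 A Y) : ¬ Pos 𝒜 A (X ∪ Y) := by
  classical
  rw [not_pos_iff] at *
  obtain ⟨F, hF, hFX⟩ := hX
  obtain ⟨G, hG, hGY⟩ := hY
  refine ⟨F ∪ G, ?_, ?_⟩
  · rw [Finset.coe_union]
    exact union_subset hF hG
  · refine (hFX.union hGY).subset ?_
    rintro z ⟨hz | hz, hn⟩
    · refine Or.inl ⟨hz, fun h => hn ?_⟩
      obtain ⟨B, hB, hzB⟩ := h
      exact ⟨B, by simp [Finset.mem_coe.1 hB], hzB⟩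
    · refine Or.inr ⟨hz, fun h => hn ?_⟩
      obtain ⟨B, hB, hzB⟩ := h
      exact ⟨B, by simp [Finset.mem_coe.1 hB], hzB⟩

/-- A set which is not covered up to a finite set by finitely many members of a maximal ideal
independent family contains, up to a finite set, some member minus finitely many others. -/
theorem max_cover {𝒜 : Set (Set ℕ)} (h : MaxIdealIndep 𝒜) {C : Set ℕ}
    (hC : ∀ F : Finset (Set ℕ), (F : Set (Set ℕ)) ⊆ 𝒜 → (C \ ⋃₀ (F : Set (Set ℕ))).Infinite) :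
    ∃ A ∈ 𝒜, ∃ F : Finset (Set ℕ), (F : Set (Set ℕ)) ⊆ 𝒜 \ {A} ∧
      ((A \ ⋃₀ (F : Set (Set ℕ))) \ C).Finite := by
  classical
  have hCA : C ∉ 𝒜 := by
    intro hmem
    have := hC {C} (by simpa using hmem)
    simp at this
  by_contra hcon
  push Not at hcon
  have hind : IdealIndep (insert C 𝒜) := by
    refine ⟨?_, ?_⟩
    · rintro A (rfl | hA)
      · have := hC ∅ (by simp)
        simpa using this
      · exact h.1.1 A hA
    · rintro A (rfl | hA) F hF
      · refine hC F ?_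
        intro B hB
        have h1 := hF hB
        rcases h1.1 with h2 | h2
        · exact absurd h2 h1.2
        · exact h2
      · have h1 : ((F.erase C : Finset (Set ℕ)) : Set (Set ℕ)) ⊆ 𝒜 \ {A} := by
          intro B hB
          rw [Finset.mem_coe, Finset.mem_erase] at hB
          have h2 := hF (Finset.mem_coe.2 hB.2)
          rcases h2.1 with h3 | h3
          · exact absurd h3 hB.1
          · exact ⟨h3, h2.2⟩
        have h2 := hcon A hA (F.erase C) h1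
        have h3 : ((A \ ⋃₀ ((F.erase C : Finset (Set ℕ)) : Set (Set ℕ))) \ C).Infinite := h2
        refine h3.mono ?_
        rintro z ⟨⟨hzA, hzF⟩, hzC⟩
        refine ⟨hzA, ?_⟩
        rintro ⟨B, hB, hzB⟩
        by_cases hBC : B = C
        · exact hzC (hBC ▸ hzB)
        · exact hzF ⟨B, by simp [hBC, Finset.mem_coe.1 hB], hzB⟩
  have := h.2 _ hind (subset_insert C 𝒜)
  exact hCA (this ▸ mem_insert C 𝒜)

/-- Cardinality count used below: if the reals inject into pairs of a member and a finite set of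
members then the family has at least continuum many members. -/
theorem continuum_le_of_inj {𝒜 : Set (Set ℕ)} (hinf : 𝒜.Infinite)
    (a : (ℕ → Bool) → Set ℕ) (F : (ℕ → Bool) → Finset (Set ℕ)) (ha : ∀ x, a x ∈ 𝒜)
    (hF : ∀ x, (F x : Set (Set ℕ)) ⊆ 𝒜) (hinj : ∀ x y, a x = a y → F x = F y → x = y) :
    𝔠 ≤ #𝒜 := by
  classical
  have : Infinite 𝒜 := hinf.to_subtype
  let φ : (ℕ → Bool) → 𝒜 × Finset 𝒜 := fun x => (⟨a x, ha x⟩, (F x).subtype (· ∈ 𝒜))
  have hφ : Function.Injective φ := by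
    intro x y hxy
    have h1 : a x = a y := by
      have := congrArg (fun q => ((q.1 : 𝒜) : Set ℕ)) hxy
      simpa [φ] using this
    have h2 : (F x).subtype (· ∈ 𝒜) = (F y).subtype (· ∈ 𝒜) := by
      have := congrArg (fun q => q.2) hxy
      simpa [φ] using this
    refine hinj x y h1 ?_
    have h3 := Finset.subtype_map_of_mem (p := (· ∈ 𝒜)) (s := F x)
      (fun B hB => hF x (Finset.mem_coe.2 hB))
    have h4 := Finset.subtype_map_of_mem (p := (· ∈ 𝒜)) (s := F y)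
      (fun B hB => hF y (Finset.mem_coe.2 hB))
    rw [← h3, ← h4, h2]
  have h1 : #(ℕ → Bool) ≤ #(𝒜 × Finset 𝒜) := mk_le_of_injective hφ
  have h2 : #(𝒜 × Finset 𝒜) = #𝒜 := by
    rw [mk_prod, lift_id, lift_id, mk_finset_of_infinite]
    exact mul_eq_self (aleph0_le_mk 𝒜)
  have h3 : #(ℕ → Bool) = 𝔠 := by
    simp
  rw [← h3, ← h2]
  exact h1

theorem mk_le_continuum (𝒜 : Set (Set ℕ)) : #𝒜 ≤ 𝔠 := by
  have h1 : #𝒜 ≤ #(Set ℕ) := mk_set_le 𝒜
  have h2 : #(Set ℕ) = 𝔠 := by simp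
  rw [← h2]
  exact h1

end Pool.Agent.Lib.MP_35a676_lc
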