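import Pool.Agent.Lib.MP_35a676_lc.Branches

/-!
# Nonmeager ideals
-/

namespace Pool.Agent.Lib.MP_35a676_lc

open Cardinal Set Topology

theorem exists_cylinder {U : Set (ℕ → Bool)} (hU : IsOpen U) {y : ℕ → Bool} (hy : y ∈ U) :
    ∃ m : ℕ, ∀ x : ℕ → Bool, (∀ i < m, x i = y i) → x ∈ U := by
  rw [isOpen_pi_iff] at hU
  obtain ⟨I, u, hu, hsub⟩ := hU y hy
  refine ⟨I.sup id + 1, fun x hx => hsub ?_⟩
  intro i hi
  have h1 : i ≤ I.sup id := Finset.le_sup (f := id) (Finset.mem_coe.1 hi)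
  rw [hx i (by omega)]
  exact (hu i (Finset.mem_coe.1 hi)).2

theorem isOpen_cylinder (y : ℕ → Bool) (m : ℕ) : IsOpen {x : ℕ → Bool | ∀ i < m, x i = y i} := by
  have h1 : {x : ℕ → Bool | ∀ i < m, x i = y i} =
      ⋂ i ∈ Finset.range m, (fun x : ℕ → Bool => x i) ⁻¹' {y i} := by
    ext x
    simp
  rw [h1]
  refine isOpen_biInter_finset (fun i _ => ?_)
  exact (isOpen_discrete {y i}).preimage (continuous_apply i)

/-- One step: a pattern on a later block which forces membership in a dense open set. -/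
theorem exists_pattern {U : Set (ℕ → Bool)} (hU : IsOpen U) (hd : Dense U) (n : ℕ) :
    ∃ m : ℕ, n < m ∧ ∃ s : ℕ → Bool, ∀ x : ℕ → Bool,
      (∀ i, n ≤ i → i < m → x i = s i) → x ∈ U := by
  classical
  have key : ∀ T : Finset (Fin n → Bool), ∃ m : ℕ, n < m ∧ ∃ s : ℕ → Bool, ∀ x : ℕ → Bool,
      (fun i : Fin n => x i) ∈ T → (∀ i, n ≤ i → i < m → x i = s i) → x ∈ U := by
    intro T
    induction T using Finset.induction_on with
    | empty => exact ⟨n + 1, Nat.lt_succ_self n, fun _ => true, fun x hx => absurd hx (by simp)⟩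
    | insert t T _ ih =>
      obtain ⟨m, hnm, s, hs⟩ := ih
      let y0 : ℕ → Bool := fun i => if h : i < n then t ⟨i, h⟩ else s i
      obtain ⟨y, hy0, hyU⟩ := hd.inter_open_nonempty _ (isOpen_cylinder y0 m) ⟨y0, fun _ _ => rfl⟩
      obtain ⟨m', hm'⟩ := exists_cylinder hU hyU
      refine ⟨max m m', lt_of_lt_of_le hnm (le_max_left _ _), y, ?_⟩
      intro x hx hxy
      rw [Finset.mem_insert] at hx
      rcases hx with hx | hx
      · refine hm' x ?_
        intro i hi
        by_cases hin : i < n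
        · have h1 : x i = t ⟨i, hin⟩ := congrFun hx ⟨i, hin⟩
          have h2 : y i = y0 i := hy0 i (by omega)
          rw [h1, h2]
          simp only [y0, hin, dif_pos]
        · exact hxy i (by omega) (lt_of_lt_of_le hi (le_max_right _ _))
      · refine hs x hx ?_
        intro i hni him
        rw [hxy i hni (lt_of_lt_of_le him (le_max_left _ _)), hy0 i him]
        simp only [y0, not_lt.2 hni, dif_neg, not_false_eq_true]
  obtain ⟨m, hnm, s, hs⟩ := key Finset.univ
  exact ⟨m, hnm, s, fun x hx => hs x (Finset.mem_univ _) hx⟩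

/-- The easy direction of the Talagrand–Jalali-Naini theorem: for a meager set which is closed
under taking subsets there is an interval partition such that no infinite union of intervals
belongs to it. -/
theorem exists_intervals {M : Set (ℕ → Bool)} (hM : IsMeagre M)
    (hdown : ∀ x y : ℕ → Bool, (∀ n, x n = true → y n = true) → y ∈ M → x ∈ M) :
    ∃ g : ℕ → ℕ, StrictMono g ∧ ∀ K : Set ℕ, K.Infinite → ∀ y : ℕ → Bool,
      (∀ k ∈ K, ∀ n, g k ≤ n → n < g (k + 1) → y n = true) → y ∉ M := by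
  classical
  have h1 : Mᶜ ∈ residual (ℕ → Bool) := hM
  unfold residual at h1
  rw [Filter.mem_countableGenerate_iff] at h1
  obtain ⟨S, hS, hcount, hSM⟩ := h1
  obtain ⟨V, hV⟩ := (hcount.insert Set.univ).exists_eq_range (insert_nonempty Set.univ S)
  have hVo : ∀ n, IsOpen (V n) ∧ Dense (V n) := by
    intro n
    have h2 : V n ∈ insert Set.univ S := hV ▸ mem_range_self n
    rcases h2 with h2 | h2
    · rw [h2]
      exact ⟨isOpen_univ, dense_univ⟩
    · exact hS h2
  have hstep : ∀ k n : ℕ, ∃ m : ℕ, n < m ∧ ∃ s : ℕ → Bool, ∀ x : ℕ → Bool,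
      (∀ i, n ≤ i → i < m → x i = s i) → ∀ j ≤ k, x ∈ V j := by
    intro k n
    have h2 : IsOpen (⋂ j ∈ Finset.range (k + 1), V j) :=
      isOpen_biInter_finset (fun j _ => (hVo j).1)
    have h3 : Dense (⋂ j ∈ Finset.range (k + 1), V j) := by
      have h4 : Dense (⋂ j ∈ ((Finset.range (k + 1) : Finset ℕ) : Set ℕ), V j) :=
        dense_biInter_of_isOpen (fun j _ => (hVo j).1) (Finset.countable_toSet _)
          (fun j _ => (hVo j).2)
      simpa using h4
    obtain ⟨m, hnm, s, hs⟩ := exists_pattern h2 h3 n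
    refine ⟨m, hnm, s, fun x hx j hj => ?_⟩
    have h5 := hs x hx
    simp only [mem_iInter, Finset.mem_range] at h5
    exact h5 j (by omega)
  choose m hm s hs using hstep
  let g : ℕ → ℕ := fun k => Nat.rec (motive := fun _ => ℕ) 0 (fun k gk => m k gk) k
  have hg : ∀ k, g (k + 1) = m k (g k) := fun k => rfl
  have hgm : StrictMono g := strictMono_nat_of_lt_succ (fun k => by
    rw [hg]
    exact hm k (g k))
  refine ⟨g, hgm, ?_⟩
  intro K hK y hy hyM
  let P : ℕ → Prop := fun n => ∃ k ∈ K, g k ≤ n ∧ n < g (k + 1) ∧ s k (g k) n = true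
  let x : ℕ → Bool := fun n => decide (P n)
  have hxy : ∀ n, x n = true → y n = true := by
    intro n hn
    have hc : P n := of_decide_eq_true hn
    obtain ⟨k, hk, h2, h3, _⟩ := hc
    exact hy k hk n h2 h3
  have hxM : x ∈ M := hdown x y hxy hyM
  have huniq : ∀ k k' n, g k ≤ n → n < g (k + 1) → g k' ≤ n → n < g (k' + 1) → k = k' := by
    intro k k' n h2 h3 h4 h5
    have h6 : k < k' + 1 := hgm.lt_iff_lt.1 (lt_of_le_of_lt h2 h5)
    have h7 : k' < k + 1 := hgm.lt_iff_lt.1 (lt_of_le_of_lt h4 h3)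
    omega
  have hxV : ∀ k ∈ K, ∀ j ≤ k, x ∈ V j := by
    intro k hk
    refine hs k (g k) x ?_
    intro i h2 h3
    rw [← hg] at h3
    by_cases hsi : s k (g k) i = true
    · have hc : P i := ⟨k, hk, h2, h3, hsi⟩
      rw [hsi]
      exact decide_eq_true hc
    · have hc : ¬ P i := by
        rintro ⟨k', _, h4, h5, h6⟩
        have h7 := huniq k k' i h2 h3 h4 h5
        subst h7
        exact hsi h6
      rw [Bool.not_eq_true] at hsi
      rw [hsi]
      exact decide_eq_false hc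
  refine hSM (fun W hW => ?_) hxM
  have h2 : W ∈ range V := hV ▸ mem_insert_of_mem Set.univ hW
  obtain ⟨j, rfl⟩ := h2
  obtain ⟨k, hk, hjk⟩ := hK.exists_gt j
  exact hxV k hk j hjk.le

/-- The ideal generated by a maximal ideal independent family of size less than continuum is
nonmeager, and so is its restriction to any set. -/
theorem not_isMeagre_ideal {𝒜 : Set (Set ℕ)} (h : MaxIdealIndep 𝒜) (hlt : #𝒜 < 𝔠)
    (X : Set ℕ) : ¬ IsMeagre {x : ℕ → Bool | ∃ F : Finset (Set ℕ), (F : Set (Set ℕ)) ⊆ 𝒜 ∧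
      ({n | n ∈ X ∧ x n = true} \ ⋃₀ (F : Set (Set ℕ))).Finite} := by
  classical
  intro hM
  obtain ⟨g, hg, hgK⟩ := exists_intervals hM (by
    rintro x y hxy ⟨F, hF, hfin⟩
    refine ⟨F, hF, hfin.subset ?_⟩
    rintro n ⟨⟨hnX, hn⟩, hnF⟩
    exact ⟨⟨hnX, hxy n hn⟩, hnF⟩)
  let C : Set ℕ → Set ℕ := fun K => {n | n ∈ X ∧ ∃ k ∈ K, g k ≤ n ∧ n < g (k + 1)}
  have hpos : ∀ x : ℕ → Bool, ∀ F : Finset (Set ℕ), (F : Set (Set ℕ)) ⊆ 𝒜 →
      (C (branch x) \ ⋃₀ (F : Set (Set ℕ))).Infinite := by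
    intro x F hF hfin
    refine hgK (branch x) (branch_infinite x)
      (fun n => decide (∃ k ∈ branch x, g k ≤ n ∧ n < g (k + 1))) ?_ ⟨F, hF, hfin.subset ?_⟩
    · intro k hk n h1 h2
      simp only [decide_eq_true_eq]
      exact ⟨k, hk, h1, h2⟩
    · rintro n ⟨⟨hnX, hn⟩, hnF⟩
      simp only [decide_eq_true_eq] at hn
      exact ⟨⟨hnX, hn⟩, hnF⟩
  have hex := fun x => max_cover h (hpos x)
  choose a ha F hF hfin using hex
  refine lt_continuum_no_inj hlt a F ha (fun x => (hF x).trans sdiff_subset) ?_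
  intro x y hxy hFxy
  by_contra hne
  have hcap : (C (branch x) ∩ C (branch y)).Finite := by
    have h1 := branch_inter_finite hne
    have h2 : (⋃ k ∈ branch x ∩ branch y, {n | n < g (k + 1)}).Finite :=
      h1.biUnion (fun k _ => finite_lt_nat (g (k + 1)))
    refine h2.subset ?_
    rintro n ⟨⟨_, k, hk, h3, h4⟩, ⟨_, k', hk', h5, h6⟩⟩
    have h7 : k < k' + 1 := hg.lt_iff_lt.1 (lt_of_le_of_lt h3 h6)
    have h8 : k' < k + 1 := hg.lt_iff_lt.1 (lt_of_le_of_lt h5 h4)
    have h9 : k = k' := by omega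
    subst h9
    simp only [mem_iUnion]
    exact ⟨k, ⟨hk, hk'⟩, h4⟩
  have h1 : ((a x \ ⋃₀ (F x : Set (Set ℕ))) \ C (branch y)).Finite := by
    rw [hxy, hFxy]
    exact hfin y
  refine h.1.2 (a x) (ha x) (F x) (hF x) (((hfin x).union (h1.union hcap)).subset ?_)
  intro n hn
  by_cases h2 : n ∈ C (branch x)
  · by_cases h3 : n ∈ C (branch y)
    · exact Or.inr (Or.inr ⟨h2, h3⟩)
    · exact Or.inr (Or.inl ⟨hn, h3⟩)
  · exact Or.inl ⟨hn, h2⟩

end Pool.Agent.Lib.MP_35a676_lc
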