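import Pool.Agent.Lib.MP_35a676_lc.Traces

/-!
# Reduction to families all of whose private filters are ultrafilters
-/

namespace Pool.Agent.Lib.MP_35a676_lc

open Cardinal Set

/-- Every private filter of `ℬ` is an ultrafilter: for every member `B` and every set `X`, one of
`B ∩ X` and `B \ X` is covered, up to a finite set, by finitely many members other than `B`. -/
def Ultra (ℬ : Set (Set ℕ)) : Prop :=
  ∀ B ∈ ℬ, ∀ X : Set ℕ,
    (∃ F : Finset (Set ℕ), (F : Set (Set ℕ)) ⊆ ℬ \ {B} ∧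
      ((B ∩ X) \ ⋃₀ (F : Set (Set ℕ))).Finite) ∨
    (∃ F : Finset (Set ℕ), (F : Set (Set ℕ)) ⊆ ℬ \ {B} ∧
      ((B \ X) \ ⋃₀ (F : Set (Set ℕ))).Finite)

theorem exists_ultra {𝒜 : Set (Set ℕ)} (h : MaxIdealIndep 𝒜) (hinf : 𝒜.Infinite)
    (hlt : #𝒜 < 𝔠) : ∃ ℬ : Set (Set ℕ), MaxIdealIndep ℬ ∧ Ultra ℬ ∧ #ℬ = #𝒜 := by
  classical
  obtain ⟨k, hk0, hE⟩ := exists_bound h hlt
  let E : Set (Set ℕ) := {A | A ∈ 𝒜 ∧ Col 𝒜 A k}
  let G : Set (Set ℕ) := {A | A ∈ 𝒜 ∧ ¬ Col 𝒜 A k}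
  have hEfin : E.Finite := hE
  have hGA : ∀ A ∈ G, A ∈ 𝒜 := fun A hA => hA.1
  have hEA : ∀ A ∈ E, A ∈ 𝒜 := fun A hA => hA.1
  have hGE : ∀ A ∈ G, A ∉ E := fun A hA hA' => hA.2 hA'.2
  have hor : ∀ A ∈ 𝒜, A ∈ G ∨ A ∈ E := by
    intro A hA
    by_cases hc : Col 𝒜 A k
    · exact Or.inr ⟨hA, hc⟩
    · exact Or.inl ⟨hA, hc⟩
  have hGinf : G.Infinite := by
    intro hfin
    exact hinf ((hfin.union hEfin).subset (fun A hA => hor A hA))
  have hex : ∀ A, ∃ (m : ℕ) (c : ℕ → ℕ), A ∈ G → (0 < m ∧ (∀ z, c z < m) ∧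
      (∀ i < m, Pos 𝒜 A {z | z ∈ A ∧ c z = i}) ∧
      ∀ i < m, ∀ X : Set ℕ, ¬ Pos 𝒜 A {z | (z ∈ A ∧ c z = i) ∧ z ∈ X} ∨
        ¬ Pos 𝒜 A {z | (z ∈ A ∧ c z = i) ∧ z ∉ X}) := by
    intro A
    by_cases hA : A ∈ G
    · obtain ⟨m, c, h1⟩ := exists_coloring h.1 hA.1 hk0 hA.2
      exact ⟨m, c, fun _ => h1⟩
    · exact ⟨0, fun _ => 0, fun hA' => absurd hA' hA⟩
  choose m c hmc using hex
  let R : Set ℕ := {z | ∀ A ∈ E, z ∉ A}
  have hRE : ∀ z, z ∉ ⋃₀ ((hEfin.toFinset : Finset (Set ℕ)) : Set (Set ℕ)) → z ∈ R := by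
    intro z hz A hA hzA
    exact hz ⟨A, by simpa using hA, hzA⟩
  have hRinf : R.Infinite := by
    obtain ⟨A, hA⟩ := hGinf.nonempty
    have h1 := h.1.2 A hA.1 hEfin.toFinset (by
      intro B hB
      rw [Finite.coe_toFinset] at hB
      exact ⟨hEA B hB, fun hBA => hGE A hA (hBA ▸ hB)⟩)
    exact h1.mono (fun z hz => hRE z hz.2)
  let e : ℕ → ℕ := Nat.nth (· ∈ R)
  have hRinf' : (setOf (· ∈ R)).Infinite := hRinf
  have he : Function.Injective e := Nat.nth_injective hRinf'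
  have hrange : range e = R := Nat.range_nth_of_infinite hRinf'
  have heR : ∀ n, e n ∈ R := fun n => hrange ▸ mem_range_self n
  have hfact1 : ∀ S : Set ℕ, S.Finite → {n | e n ∈ S}.Finite := by
    intro S hS
    exact hS.preimage he.injOn
  have hfact2 : ∀ S : Set ℕ, S ⊆ R → S.Infinite → {n | e n ∈ S}.Infinite := by
    intro S hSR hS hfin
    refine hS ((hfin.image e).subset ?_)
    intro z hz
    have h1 : z ∈ range e := hrange ▸ hSR hz
    obtain ⟨n, rfl⟩ := h1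
    exact ⟨n, hz, rfl⟩
  let P : Set ℕ → ℕ → Set ℕ := fun A i => {n | e n ∈ A ∧ c A (e n) = i}
  let ℬ : Set (Set ℕ) := {D | ∃ A ∈ G, ∃ i < m A, D = P A i}
  have hPℬ : ∀ A ∈ G, ∀ i < m A, P A i ∈ ℬ := fun A hA i hi => ⟨A, hA, i, hi, rfl⟩
  -- pieces of different members are different
  have hPne : ∀ A ∈ G, ∀ i < m A, ∀ A' ∈ 𝒜, A' ≠ A → ∀ j, P A i ≠ P A' j := by
    intro A hA i hi A' hA' hne j heq
    have hpos := (hmc A hA).2.2.1 i hi
    have hF : ((insert A' hEfin.toFinset : Finset (Set ℕ)) : Set (Set ℕ)) ⊆ 𝒜 \ {A} := by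
      intro B hB
      rw [Finset.mem_coe, Finset.mem_insert, Finite.mem_toFinset] at hB
      rcases hB with rfl | hB
      · exact ⟨hA', hne⟩
      · exact ⟨hEA B hB, fun hBA => hGE A hA (hBA ▸ hB)⟩
    refine hpos _ hF (finite_empty.subset ?_)
    rintro z ⟨⟨hzA, hzi⟩, hzF⟩
    have hzR : z ∈ R := hRE z (by
      rintro ⟨B, hB, hzB⟩
      exact hzF ⟨B, by simpa using Or.inr (by simpa using hB), hzB⟩)
    have h1 : z ∈ range e := hrange ▸ hzR
    obtain ⟨n, rfl⟩ := h1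
    have h2 : n ∈ P A i := ⟨hzA, hzi⟩
    rw [heq] at h2
    exact hzF ⟨A', by simp, h2.1⟩
  -- positive sets of `𝒜` give positive sets of `ℬ`
  have hup : ∀ A ∈ G, ∀ i < m A, ∀ S : Set ℕ, (∀ z ∈ S, z ∈ A ∧ c A z = i) → Pos 𝒜 A S →
      Pos ℬ (P A i) {n | e n ∈ S} := by
    intro A hA i hi S hS hpos F hF
    have hrep : ∀ D, ∃ A' : Set ℕ, D ∈ F → (A' ∈ G ∧ ∃ j < m A', D = P A' j) := by
      intro D
      by_cases hD : D ∈ F
      · obtain ⟨A', hA', j, hj, hDj⟩ := (hF hD).1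
        exact ⟨A', fun _ => ⟨hA', j, hj, hDj⟩⟩
      · exact ⟨∅, fun hD' => absurd hD' hD⟩
    choose rep hrep using hrep
    let F' : Finset (Set ℕ) := (F.image rep).erase A ∪ hEfin.toFinset
    have hF' : (F' : Set (Set ℕ)) ⊆ 𝒜 \ {A} := by
      intro B hB
      rw [Finset.mem_coe, Finset.mem_union, Finset.mem_erase, Finset.mem_image,
        Finite.mem_toFinset] at hB
      rcases hB with ⟨hBA, D, hD, rfl⟩ | hB
      · exact ⟨(hrep D hD).1.1, hBA⟩
      · exact ⟨hEA B hB, fun hBA => hGE A hA (hBA ▸ hB)⟩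
    have h1 := hpos F' hF'
    have h2 : S \ ⋃₀ (F' : Set (Set ℕ)) ⊆ R := by
      rintro z ⟨_, hz⟩
      refine hRE z ?_
      rintro ⟨B, hB, hzB⟩
      exact hz ⟨B, Finset.mem_coe.2 (Finset.mem_union_right _ (Finset.mem_coe.1 hB)), hzB⟩
    refine (hfact2 _ h2 h1).mono ?_
    rintro n ⟨hn, hnF⟩
    refine ⟨hn, ?_⟩
    rintro ⟨D, hD, hnD⟩
    obtain ⟨hG', j, hj, hDj⟩ := hrep D hD
    rw [hDj] at hnD
    by_cases hAA : rep D = A
    · have h3 : j = i := by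
        have h4 := hnD.2
        rw [hAA] at h4
        rw [← h4]
        exact (hS _ hn).2
      have h5 := (hF hD).2
      apply h5
      change D = P A i
      rw [hDj, hAA, h3]
    · refine hnF ⟨rep D, ?_, hnD.1⟩
      rw [Finset.mem_coe, Finset.mem_union, Finset.mem_erase]
      exact Or.inl ⟨hAA, Finset.mem_image_of_mem rep hD⟩
  -- pieces of a finite family
  let pieces : Finset (Set ℕ) → Finset (Set ℕ) := fun F =>
    (F.filter (· ∈ G)).biUnion (fun A => (Finset.range (m A)).image (P A))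
  have hpieces : ∀ F : Finset (Set ℕ), (F : Set (Set ℕ)) ⊆ 𝒜 →
      ((pieces F : Finset (Set ℕ)) : Set (Set ℕ)) ⊆ ℬ := by
    intro F _ D hD
    simp only [pieces, Finset.mem_coe, Finset.mem_biUnion, Finset.mem_filter, Finset.mem_image,
      Finset.mem_range] at hD
    obtain ⟨A, ⟨_, hA⟩, i, hi, rfl⟩ := hD
    exact hPℬ A hA i hi
  have hpieces2 : ∀ F : Finset (Set ℕ), ∀ A ∈ G, ∀ i < m A, (F : Set (Set ℕ)) ⊆ 𝒜 \ {A} →
      ((pieces F : Finset (Set ℕ)) : Set (Set ℕ)) ⊆ ℬ \ {P A i} := by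
    intro F A hA i hi hF D hD
    refine ⟨hpieces F (fun B hB => (hF hB).1) hD, ?_⟩
    simp only [pieces, Finset.mem_coe, Finset.mem_biUnion, Finset.mem_filter, Finset.mem_image,
      Finset.mem_range] at hD
    obtain ⟨A', ⟨hA'F, hA'⟩, j, hj, rfl⟩ := hD
    intro heq
    exact hPne A hA i hi A' hA'.1 (hF hA'F).2 j heq.symm
  have hcov : ∀ F : Finset (Set ℕ), (F : Set (Set ℕ)) ⊆ 𝒜 → ∀ n,
      e n ∈ ⋃₀ (F : Set (Set ℕ)) → n ∈ ⋃₀ ((pieces F : Finset (Set ℕ)) : Set (Set ℕ)) := by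
    rintro F hF n ⟨A, hA, hnA⟩
    have hAG : A ∈ G := by
      rcases hor A (hF hA) with h1 | h1
      · exact h1
      · exact absurd hnA (heR n A h1)
    refine ⟨P A (c A (e n)), ?_, ⟨hnA, rfl⟩⟩
    simp only [pieces, Finset.mem_coe, Finset.mem_biUnion, Finset.mem_filter, Finset.mem_image,
      Finset.mem_range]
    exact ⟨A, ⟨hA, hAG⟩, _, (hmc A hAG).2.1 _, rfl⟩
  -- positive sets of `ℬ` give positive sets of `𝒜`
  have hdown : ∀ A ∈ G, ∀ i < m A, ∀ S : Set ℕ, Pos ℬ (P A i) {n | e n ∈ S} → Pos 𝒜 A S := by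
    intro A hA i hi S hpos F hF
    have h1 := hpos (pieces F) (hpieces2 F A hA i hi hF)
    intro hfin
    refine h1 ((hfact1 _ hfin).subset ?_)
    rintro n ⟨hn, hnF⟩
    exact ⟨hn, fun hn' => hnF (hcov F (fun B hB => (hF hB).1) n hn')⟩
  have hind : IdealIndep ℬ := by
    have hpos : ∀ B ∈ ℬ, Pos ℬ B B := by
      rintro _ ⟨A, hA, i, hi, rfl⟩
      exact hup A hA i hi {z | z ∈ A ∧ c A z = i} (fun z hz => hz) ((hmc A hA).2.2.1 i hi)
    refine ⟨?_, fun B hB => hpos B hB⟩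
    intro B hB
    have h1 := hpos B hB ∅ (by simp)
    simpa using h1
  refine ⟨ℬ, ⟨hind, ?_⟩, ?_, ?_⟩
  · -- maximality
    intro ℬ' hind' hsub
    refine Subset.antisymm ?_ hsub
    intro C hC
    by_contra hCℬ
    let D : Set ℕ := e '' C
    have hDC : ∀ n, e n ∈ D → n ∈ C := by
      rintro n ⟨n', hn', heq⟩
      rw [he heq] at hn'
      exact hn'
    have hDR : D ⊆ R := by
      rintro _ ⟨n, _, rfl⟩
      exact heR n
    by_cases hcase : ∃ F : Finset (Set ℕ), (F : Set (Set ℕ)) ⊆ 𝒜 ∧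
        (D \ ⋃₀ (F : Set (Set ℕ))).Finite
    · obtain ⟨F, hF, hfin⟩ := hcase
      have h1 : ((pieces F : Finset (Set ℕ)) : Set (Set ℕ)) ⊆ ℬ' \ {C} := by
        intro B hB
        have h2 := hpieces F hF hB
        refine ⟨hsub h2, ?_⟩
        rintro rfl
        exact hCℬ h2
      refine hind'.2 C hC _ h1 ((hfact1 _ hfin).subset ?_)
      rintro n ⟨hn, hnF⟩
      exact ⟨⟨n, hn, rfl⟩, fun hn' => hnF (hcov F hF n hn')⟩
    · have hcase' : ∀ F : Finset (Set ℕ), (F : Set (Set ℕ)) ⊆ 𝒜 →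
          (D \ ⋃₀ (F : Set (Set ℕ))).Infinite := by
        intro F hF hfin
        exact hcase ⟨F, hF, hfin⟩
      obtain ⟨A, hA, F, hF, hfin⟩ := max_cover h hcase'
      have hAG : A ∈ G := by
        rcases hor A hA with h1 | h1
        · exact h1
        · exfalso
          refine h.1.2 A hA F hF (hfin.subset ?_)
          rintro z ⟨hz, hzF⟩
          exact ⟨⟨hz, hzF⟩, fun hzD => hDR hzD A h1 hz⟩
      have hm : 0 < m A := (hmc A hAG).1
      have hB : P A 0 ∈ ℬ := hPℬ A hAG 0 hm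
      have h1 : ((insert C (pieces F) : Finset (Set ℕ)) : Set (Set ℕ)) ⊆ ℬ' \ {P A 0} := by
        intro B hB'
        rw [Finset.mem_coe, Finset.mem_insert] at hB'
        rcases hB' with rfl | hB'
        · refine ⟨hC, ?_⟩
          intro heq
          rw [mem_singleton_iff] at heq
          rw [heq] at hCℬ
          exact hCℬ hB
        · have h2 := hpieces2 F A hAG 0 hm hF (Finset.mem_coe.2 hB')
          exact ⟨hsub h2.1, h2.2⟩
      refine hind'.2 (P A 0) (hsub hB) _ h1 ((hfact1 _ hfin).subset ?_)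
      rintro n ⟨hn, hnF⟩
      refine ⟨⟨hn.1, fun hn' => hnF ?_⟩, fun hn' => hnF ?_⟩
      · obtain ⟨B, hB1, hB2⟩ := hcov F (fun B hB => (hF hB).1) n hn'
        exact ⟨B, Finset.mem_coe.2 (Finset.mem_insert_of_mem (Finset.mem_coe.1 hB1)), hB2⟩
      · exact ⟨C, Finset.mem_coe.2 (Finset.mem_insert_self _ _), hDC n hn'⟩
  · -- ultrafilters
    rintro _ ⟨A, hA, i, hi, rfl⟩ X
    have h1 := (hmc A hA).2.2.2 i hi (e '' X)
    rcases h1 with h1 | h1
    · left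
      rw [← not_pos_iff]
      intro h2
      refine h1 (hdown A hA i hi _ (h2.mono ?_))
      rintro n ⟨hn, hnX⟩
      exact ⟨hn, n, hnX, rfl⟩
    · right
      rw [← not_pos_iff]
      intro h2
      refine h1 (hdown A hA i hi _ (h2.mono ?_))
      rintro n ⟨hn, hnX⟩
      refine ⟨hn, ?_⟩
      rintro ⟨n', hn', heq⟩
      rw [he heq] at hn'
      exact hnX hn'
  · -- cardinality
    have hinfT : Infinite 𝒜 := hinf.to_subtype
    refine le_antisymm ?_ ?_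
    · have h1 : ℬ ⊆ range (fun q : 𝒜 × ℕ => P q.1 q.2) := by
        rintro _ ⟨A, hA, i, hi, rfl⟩
        exact ⟨(⟨A, hA.1⟩, i), rfl⟩
      refine (mk_le_mk_of_subset h1).trans (mk_range_le.trans ?_)
      rw [mk_prod, lift_id, lift_id, mk_nat]
      exact (mul_aleph0_eq (aleph0_le_mk 𝒜)).le
    · have h1 : #G ≤ #ℬ := by
        refine mk_le_of_injective (f := fun A : G => (⟨P A 0, hPℬ A A.2 0 (hmc A A.2).1⟩ : ℬ)) ?_
        intro A A' heq
        by_contra hne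
        have h2 : P A 0 = P A' 0 := congrArg Subtype.val heq
        exact hPne A A.2 0 (hmc A A.2).1 A' A'.2.1 (fun h3 => hne (Subtype.ext h3.symm)) 0 h2
      have h2 : #𝒜 ≤ #G + #E := by
        refine (mk_le_mk_of_subset (fun A hA => hor A hA : 𝒜 ⊆ G ∪ E)).trans (mk_union_le G E)
      have hGT : Infinite G := hGinf.to_subtype
      have hET : Finite E := hEfin.to_subtype
      have h3 : #G + #E = #G :=
        add_eq_left (aleph0_le_mk G) ((lt_aleph0_of_finite E).le.trans (aleph0_le_mk G))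
      exact h2.trans (h3.le.trans h1)

end Pool.Agent.Lib.MP_35a676_lc
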