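import Pool.Agent.Lib.MP_35a676_lc.Trees

/-!
# Finite traces: small families have few disjoint positive sets inside almost every member
-/

namespace Pool.Agent.Lib.MP_35a676_lc

open Cardinal Set

/-- `A` is coloured with `m` colours so that every colour class in `A` is positive. -/
def Col (𝒜 : Set (Set ℕ)) (A : Set ℕ) (m : ℕ) : Prop :=
  ∃ c : ℕ → ℕ, (∀ z, c z < m) ∧ ∀ i < m, Pos 𝒜 A {z | z ∈ A ∧ c z = i}

theorem split_of_col {𝒜 : Set (Set ℕ)} {A : Set ℕ} {k : ℕ} (h : Col 𝒜 A (2 ^ k)) :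
    Split 𝒜 A k := by
  classical
  obtain ⟨c, _, hc⟩ := h
  have hcard : Fintype.card (Fin k → Bool) = 2 ^ k := by simp
  let e : (Fin k → Bool) ≃ Fin (2 ^ k) := Fintype.equivFinOfCardEq hcard
  refine ⟨fun x => {z | z ∈ A ∧ c z = (e (fun i => x i) : ℕ)}, ?_, ?_⟩
  · intro x
    exact ⟨fun z hz => hz.1, hc _ (e (fun i => x i)).2⟩
  · rintro x y ⟨i, hi, hxy⟩
    rw [Set.disjoint_left]
    rintro z ⟨_, hz1⟩ ⟨_, hz2⟩
    have h1 : e (fun i => x i) = e (fun i => y i) := Fin.ext (hz1.symm.trans hz2)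
    have h2 := e.injective h1
    exact hxy (congrFun h2 ⟨i, hi⟩)

/-- In a maximal ideal independent family of size less than continuum there is a bound on the
number of positive classes for all but finitely many members. -/
theorem exists_bound {𝒜 : Set (Set ℕ)} (h : MaxIdealIndep 𝒜) (hlt : #𝒜 < 𝔠) :
    ∃ m : ℕ, 0 < m ∧ {A | A ∈ 𝒜 ∧ Col 𝒜 A m}.Finite := by
  by_contra hcon
  push Not at hcon
  refine absurd (continuum_le_of_frequently_split h ?_) (not_le.2 hlt)
  intro k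
  exact (hcon (2 ^ k) (by positivity)).mono (fun A hA => ⟨hA.1, split_of_col hA.2⟩)

theorem col_one {𝒜 : Set (Set ℕ)} {A : Set ℕ} (h : IdealIndep 𝒜) (hA : A ∈ 𝒜) :
    Col 𝒜 A 1 := by
  refine ⟨fun _ => 0, fun _ => Nat.one_pos, ?_⟩
  intro i hi
  have h0 : i = 0 := by omega
  subst h0
  have h1 : {z : ℕ | z ∈ A ∧ 0 = 0} = A := by
    ext z
    simp
  rw [h1]
  exact h.2 A hA

/-- Splitting one of the colour classes. -/
theorem col_succ {𝒜 : Set (Set ℕ)} {A : Set ℕ} {m i : ℕ} {c : ℕ → ℕ} (hcm : ∀ z, c z < m)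
    (hc : ∀ i < m, Pos 𝒜 A {z | z ∈ A ∧ c z = i}) (hi : i < m) {X : Set ℕ}
    (h1 : Pos 𝒜 A {z | (z ∈ A ∧ c z = i) ∧ z ∈ X})
    (h2 : Pos 𝒜 A {z | (z ∈ A ∧ c z = i) ∧ z ∉ X}) : Col 𝒜 A (m + 1) := by
  classical
  refine ⟨fun z => if c z = i ∧ z ∈ X then m else c z, ?_, ?_⟩
  · intro z
    by_cases hz : c z = i ∧ z ∈ X
    · simp only [hz, and_self, if_true]
      omega
    · simp only [hz, if_false]
      have := hcm z
      omega
  · intro j hj
    by_cases hjm : j = m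
    · subst hjm
      refine h1.mono ?_
      rintro z ⟨⟨hzA, hzi⟩, hzX⟩
      refine ⟨hzA, ?_⟩
      simp only [hzi, hzX, and_self, if_true]
    · have hjm' : j < m := by omega
      by_cases hji : j = i
      · subst hji
        refine h2.mono ?_
        rintro z ⟨⟨hzA, hzi⟩, hzX⟩
        refine ⟨hzA, ?_⟩
        simp only [hzX, and_false, if_false]
        exact hzi
      · refine (hc j hjm').mono ?_
        rintro z ⟨hzA, hzj⟩
        refine ⟨hzA, ?_⟩
        have hne : ¬ (c z = i ∧ z ∈ X) := by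
          rintro ⟨h3, _⟩
          exact hji (hzj.symm.trans h3)
        simp only [hne, if_false]
        exact hzj

/-- A member with finitely many positive classes has a colouring all of whose classes are
unsplittable. -/
theorem exists_coloring {𝒜 : Set (Set ℕ)} {A : Set ℕ} {k : ℕ} (h : IdealIndep 𝒜) (hA : A ∈ 𝒜)
    (hk0 : 0 < k) (hk : ¬ Col 𝒜 A k) : ∃ (m : ℕ) (c : ℕ → ℕ), 0 < m ∧ (∀ z, c z < m) ∧
      (∀ i < m, Pos 𝒜 A {z | z ∈ A ∧ c z = i}) ∧
      ∀ i < m, ∀ X : Set ℕ, ¬ Pos 𝒜 A {z | (z ∈ A ∧ c z = i) ∧ z ∈ X} ∨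
        ¬ Pos 𝒜 A {z | (z ∈ A ∧ c z = i) ∧ z ∉ X} := by
  classical
  have hstep : ∃ m, 0 < m ∧ Col 𝒜 A m ∧ ¬ Col 𝒜 A (m + 1) := by
    by_contra hcon
    push Not at hcon
    have hall : ∀ m, 0 < m → Col 𝒜 A m := by
      intro m hm
      induction m with
      | zero => omega
      | succ m ih =>
        rcases Nat.eq_zero_or_pos m with h0 | h0
        · subst h0
          exact col_one h hA
        · exact hcon m h0 (ih h0)
    exact hk (hall k hk0)
  obtain ⟨m, hm, ⟨c, hcm, hc⟩, hm1⟩ := hstep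
  refine ⟨m, c, hm, hcm, hc, ?_⟩
  intro i hi X
  by_contra hcon
  push Not at hcon
  exact hm1 (col_succ hcm hc hi hcon.1 hcon.2)

end Pool.Agent.Lib.MP_35a676_lc
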