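import Pool.Agent.Lib.MP_35a676_lc.Defs

/-!
# Trees of pairwise disjoint positive sets, and the size of the family
-/

namespace Pool.Agent.Lib.MP_35a676_lc

open Cardinal Set

/-- `A` carries an indexed system of positive sets, indexed by binary sequences, in which
sequences with different restrictions to `k` have disjoint sets. -/
def Split (𝒜 : Set (Set ℕ)) (A : Set ℕ) (k : ℕ) : Prop :=
  ∃ Z : (ℕ → Bool) → Set ℕ, (∀ x, Z x ⊆ A ∧ Pos 𝒜 A (Z x)) ∧
    ∀ x y, (∃ i < k, x i ≠ y i) → Disjoint (Z x) (Z y)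

theorem Split.mono {𝒜 : Set (Set ℕ)} {A : Set ℕ} {k l : ℕ} (h : Split 𝒜 A l) (hkl : k ≤ l) :
    Split 𝒜 A k := by
  obtain ⟨Z, hZ, hd⟩ := h
  refine ⟨Z, hZ, fun x y hxy => hd x y ?_⟩
  obtain ⟨i, hi, h⟩ := hxy
  exact ⟨i, lt_of_lt_of_le hi hkl, h⟩

/-- If infinitely many members carry larger and larger systems of pairwise disjoint positive
sets, the family has size continuum. -/
theorem continuum_le_of_split {𝒜 : Set (Set ℕ)} (h : MaxIdealIndep 𝒜) (A : ℕ → Set ℕ)
    (hA : ∀ n, A n ∈ 𝒜) (hinj : Function.Injective A) (hS : ∀ n, Split 𝒜 (A n) (n + 1)) :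
    𝔠 ≤ #𝒜 := by
  classical
  choose Z hZ hd using hS
  have hinf : 𝒜.Infinite := infinite_of_injective_forall_mem hinj hA
  let C : (ℕ → Bool) → Set ℕ := fun x => {z | ∃ n, z ∈ Z n x ∧ ∀ m < n, z ∉ A m}
  have hCpos : ∀ x, ∀ F : Finset (Set ℕ), (F : Set (Set ℕ)) ⊆ 𝒜 →
      (C x \ ⋃₀ (F : Set (Set ℕ))).Infinite := by
    intro x F hF
    obtain ⟨n, hn⟩ : ∃ n, A n ∉ F := by
      by_contra hcon
      push Not at hcon
      exact (infinite_range_of_injective hinj) (F.finite_toSet.subset (by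
        rintro _ ⟨n, rfl⟩
        exact hcon n))
    have h1 : ((F ∪ (Finset.range n).image A : Finset (Set ℕ)) : Set (Set ℕ)) ⊆ 𝒜 \ {A n} := by
      intro B hB
      rw [Finset.mem_coe, Finset.mem_union, Finset.mem_image] at hB
      rcases hB with hB | ⟨m, hm, rfl⟩
      · exact ⟨hF hB, fun h => hn (h ▸ hB)⟩
      · refine ⟨hA m, fun h => ?_⟩
        have := hinj h
        rw [Finset.mem_range] at hm
        omega
    refine ((hZ n x).2 _ h1).mono ?_
    rintro z ⟨hz, hzF⟩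
    refine ⟨⟨n, hz, fun m hm hzm => hzF ?_⟩, fun hzF' => hzF ?_⟩
    · refine ⟨A m, ?_, hzm⟩
      rw [Finset.mem_coe, Finset.mem_union]
      exact Or.inr (Finset.mem_image_of_mem A (Finset.mem_range.2 hm))
    · obtain ⟨B, hB, hzB⟩ := hzF'
      refine ⟨B, ?_, hzB⟩
      rw [Finset.mem_coe, Finset.mem_union]
      exact Or.inl hB
  have hex := fun x => max_cover h (hCpos x)
  choose a ha F hF hfin using hex
  refine continuum_le_of_inj hinf a F ha (fun x => (hF x).trans sdiff_subset) ?_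
  intro x y hxy hFxy
  by_contra hne
  obtain ⟨N, hN⟩ := Function.ne_iff.1 hne
  have hcap : C x ∩ C y ⊆ ⋃ m ∈ Finset.range N, A m := by
    rintro z ⟨⟨n, hzn, hnm⟩, ⟨n', hzn', hnm'⟩⟩
    have hnn : n = n' := by
      rcases lt_trichotomy n n' with hlt | heq | hgt
      · exact absurd ((hZ n x).1 hzn) (hnm' n hlt)
      · exact heq
      · exact absurd ((hZ n' y).1 hzn') (hnm n' hgt)
    subst hnn
    have hnN : n < N := by
      by_contra hge
      exact (Set.disjoint_left.1 (hd n x y ⟨N, by omega, hN⟩)) hzn hzn'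
    simp only [mem_iUnion, Finset.mem_range]
    exact ⟨n, hnN, (hZ n x).1 hzn⟩
  have hfin2 : ((a x \ ⋃₀ (F x : Set (Set ℕ))) \ (C x ∩ C y)).Finite := by
    refine ((hfin x).union (hxy ▸ hFxy ▸ hfin y :
      ((a x \ ⋃₀ (F x : Set (Set ℕ))) \ C y).Finite)).subset ?_
    rintro z ⟨hz, hzC⟩
    by_cases hzx : z ∈ C x
    · exact Or.inr ⟨hz, fun hzy => hzC ⟨hzx, hzy⟩⟩
    · exact Or.inl ⟨hz, hzx⟩
  obtain ⟨i, hiN, hi⟩ : ∃ i < N, a x = A i := by
    by_contra hcon
    push Not at hcon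
    have h1 : ((F x ∪ (Finset.range N).image A : Finset (Set ℕ)) : Set (Set ℕ)) ⊆
        𝒜 \ {a x} := by
      intro B hB
      rw [Finset.mem_coe, Finset.mem_union, Finset.mem_image] at hB
      rcases hB with hB | ⟨m, hm, rfl⟩
      · exact hF x hB
      · exact ⟨hA m, fun h => hcon m (Finset.mem_range.1 hm) (h.symm)⟩
    refine (h.1.2 (a x) (ha x) _ h1) (hfin2.subset ?_)
    rintro z ⟨hz, hzF⟩
    refine ⟨⟨hz, fun hzF' => hzF ?_⟩, fun hzC => hzF ?_⟩
    · obtain ⟨B, hB, hzB⟩ := hzF'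
      refine ⟨B, ?_, hzB⟩
      rw [Finset.mem_coe, Finset.mem_union]
      exact Or.inl hB
    · have := hcap hzC
      simp only [mem_iUnion] at this
      obtain ⟨m, hm, hzm⟩ := this
      refine ⟨A m, ?_, hzm⟩
      rw [Finset.mem_coe, Finset.mem_union]
      exact Or.inr (Finset.mem_image_of_mem A hm)
  let t : ℕ → Bool := fun _ => !(x 0)
  have h1 : ((F x ∪ (Finset.range i).image A : Finset (Set ℕ)) : Set (Set ℕ)) ⊆ 𝒜 \ {A i} := by
    intro B hB
    rw [Finset.mem_coe, Finset.mem_union, Finset.mem_image] at hB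
    rcases hB with hB | ⟨m, hm, rfl⟩
    · exact hi ▸ hF x hB
    · refine ⟨hA m, fun h => ?_⟩
      have := hinj h
      rw [Finset.mem_range] at hm
      omega
  refine ((hZ i t).2 _ h1) ((hfin x).subset ?_)
  rintro z ⟨hz, hzF⟩
  have hzm : ∀ m < i, z ∉ A m := by
    intro m hm hzm
    refine hzF ⟨A m, ?_, hzm⟩
    rw [Finset.mem_coe, Finset.mem_union]
    exact Or.inr (Finset.mem_image_of_mem A (Finset.mem_range.2 hm))
  refine ⟨⟨hi ▸ (hZ i t).1 hz, fun hzF' => hzF ?_⟩, ?_⟩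
  · obtain ⟨B, hB, hzB⟩ := hzF'
    refine ⟨B, ?_, hzB⟩
    rw [Finset.mem_coe, Finset.mem_union]
    exact Or.inl hB
  · rintro ⟨n, hzn, hnm⟩
    have hni : n = i := by
      rcases lt_trichotomy n i with hlt | heq | hgt
      · exact absurd ((hZ n x).1 hzn) (hzm n hlt)
      · exact heq
      · exact absurd ((hZ i t).1 hz) (hnm i hgt)
    subst hni
    refine (Set.disjoint_left.1 (hd n x t ⟨0, by omega, ?_⟩)) hzn hz
    simp [t]

/-- If every positive subset of `A` splits into two disjoint positive sets then there are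
arbitrarily large systems. -/
theorem split_of_splits {𝒜 : Set (Set ℕ)} {A : Set ℕ}
    (h : ∀ Z, Z ⊆ A → Pos 𝒜 A Z →
      ∃ X Y, X ⊆ Z ∧ Y ⊆ Z ∧ Disjoint X Y ∧ Pos 𝒜 A X ∧ Pos 𝒜 A Y) :
    ∀ k : ℕ, ∀ Z, Z ⊆ A → Pos 𝒜 A Z → ∃ W : (ℕ → Bool) → Set ℕ,
      (∀ x, W x ⊆ Z ∧ Pos 𝒜 A (W x)) ∧ ∀ x y, (∃ i < k, x i ≠ y i) → Disjoint (W x) (W y) := by
  intro k
  induction k with
  | zero =>
    intro Z _ hZ
    refine ⟨fun _ => Z, fun _ => ⟨le_rfl, hZ⟩, ?_⟩
    rintro x y ⟨i, hi, _⟩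
    omega
  | succ k ih =>
    intro Z hZA hZ
    obtain ⟨X, Y, hXZ, hYZ, hXY, hX, hY⟩ := h Z hZA hZ
    obtain ⟨U, hU, hUd⟩ := ih X (hXZ.trans hZA) hX
    obtain ⟨V, hV, hVd⟩ := ih Y (hYZ.trans hZA) hY
    refine ⟨fun x => if x 0 = true then U (fun i => x (i + 1)) else V (fun i => x (i + 1)),
      ?_, ?_⟩
    · intro x
      by_cases hx : x 0 = true
      · simp only [hx, if_true]
        exact ⟨(hU _).1.trans hXZ, (hU _).2⟩
      · simp only [hx]
        exact ⟨(hV _).1.trans hYZ, (hV _).2⟩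
    · rintro x y ⟨i, hi, hxy⟩
      by_cases hx : x 0 = true
      · by_cases hy : y 0 = true
        · simp only [hx, hy, if_true]
          refine hUd _ _ ?_
          cases i with
          | zero => exact absurd (hx.trans hy.symm) hxy
          | succ j => exact ⟨j, by omega, hxy⟩
        · simp only [hx, hy, if_true]
          exact hXY.mono (hU _).1 (hV _).1
      · by_cases hy : y 0 = true
        · simp only [hx, hy, if_true]
          exact hXY.symm.mono (hV _).1 (hU _).1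
        · simp only [hx, hy]
          refine hVd _ _ ?_
          cases i with
          | zero =>
            refine absurd ?_ hxy
            rw [Bool.not_eq_true] at hx hy
            rw [hx, hy]
          | succ j => exact ⟨j, by omega, hxy⟩

/-- Sequence extraction: if for every `k` infinitely many members satisfy `Split 𝒜 A k` then
the family has size continuum. -/
theorem continuum_le_of_frequently_split {𝒜 : Set (Set ℕ)} (h : MaxIdealIndep 𝒜)
    (hS : ∀ k : ℕ, {A | A ∈ 𝒜 ∧ Split 𝒜 A k}.Infinite) : 𝔠 ≤ #𝒜 := by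
  classical
  obtain ⟨f, hf, hr⟩ := exists_seq_of_forall_finset_exists
    (fun q : ℕ × Set ℕ => q.2 ∈ 𝒜 ∧ Split 𝒜 q.2 q.1)
    (fun q q' => q.2 ≠ q'.2 ∧ q.1 < q'.1) (by
      intro s _
      obtain ⟨A, hA, hAs⟩ := (hS (s.sup Prod.fst + 1)).exists_notMem_finset (s.image Prod.snd)
      refine ⟨(s.sup Prod.fst + 1, A), hA, ?_⟩
      intro q hq
      refine ⟨fun h => hAs ?_, ?_⟩
      · have h' : q.2 = A := h
        rw [← h']
        exact Finset.mem_image_of_mem Prod.snd hq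
      · exact Nat.lt_succ_of_le (Finset.le_sup (f := Prod.fst) hq))
  have hle : ∀ n, n ≤ (f n).1 := by
    intro n
    induction n with
    | zero => exact Nat.zero_le _
    | succ n ih => exact Nat.succ_le_of_lt (lt_of_le_of_lt ih (hr n (n + 1) (Nat.lt_succ_self n)).2)
  refine continuum_le_of_split h (fun n => (f (n + 1)).2) (fun n => (hf (n + 1)).1) ?_
    (fun n => (hf (n + 1)).2.mono (hle (n + 1)))
  intro m n hmn
  by_contra hne
  rcases lt_or_gt_of_ne hne with hlt | hlt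
  · exact (hr (m + 1) (n + 1) (by omega)).1 hmn
  · exact (hr (n + 1) (m + 1) (by omega)).1 hmn.symm

end Pool.Agent.Lib.MP_35a676_lc
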