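import Pool.Agent.Lib.MP_35a676_lc.Defs

/-!
# Unsplittable positive sets and centered subfamilies
-/

namespace Pool.Agent.Lib.MP_35a676_lc

open Cardinal Set Filter

/-- Every finite subfamily of `𝒞` has infinite intersection. -/
def Centered (𝒞 : Set (Set ℕ)) : Prop :=
  ∀ F : Finset (Set ℕ), (F : Set (Set ℕ)) ⊆ 𝒞 → (⋂₀ (F : Set (Set ℕ))).Infinite

/-- The ultrafilter number `𝔲`: the least size of a base of a nonprincipal ultrafilter on `ℕ`. -/
noncomputable def uNum : Cardinal.{0} :=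
  sInf {κ | ∃ (p : Ultrafilter ℕ) (ℬ : Set (Set ℕ)), (∀ n : ℕ, {n} ∉ p) ∧ (∀ B ∈ ℬ, B ∈ p) ∧
    (∀ X ∈ p, ∃ B ∈ ℬ, B ⊆ X) ∧ #ℬ = κ}

theorem le_cofinite_of {p : Ultrafilter ℕ} (hp : ∀ n : ℕ, {n} ∉ p) :
    (p : Filter ℕ) ≤ cofinite := by
  rw [Filter.le_cofinite_iff_compl_singleton_mem]
  intro n
  exact Ultrafilter.compl_mem_iff_notMem.2 (hp n)

theorem infinite_of_mem {p : Ultrafilter ℕ} (hp : (p : Filter ℕ) ≤ cofinite) {X : Set ℕ}
    (hX : X ∈ p) : X.Infinite := by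
  intro hfin
  have h1 : Xᶜ ∈ (p : Filter ℕ) := hp (by simpa using hfin)
  exact (Ultrafilter.compl_mem_iff_notMem.1 h1) hX

theorem aleph0_lt_base {p : Ultrafilter ℕ} {ℬ : Set (Set ℕ)} (hp : ∀ n : ℕ, {n} ∉ p)
    (hℬ : ∀ B ∈ ℬ, B ∈ p) (hb : ∀ X ∈ p, ∃ B ∈ ℬ, B ⊆ X) : ℵ₀ < #ℬ := by
  by_contra hcon
  rw [not_lt] at hcon
  have hcount : ℬ.Countable := Cardinal.le_aleph0_iff_set_countable.1 hcon
  have hne : ℬ.Nonempty := by
    obtain ⟨B, hB, _⟩ := hb univ Filter.univ_mem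
    exact ⟨B, hB⟩
  obtain ⟨B, hBr⟩ := hcount.exists_eq_range hne
  have hBp : ∀ n, B n ∈ p := fun n => hℬ _ (hBr ▸ mem_range_self n)
  obtain ⟨c, hc, hcB⟩ := Filter.extraction_forall_of_frequently
    (P := fun n k => k ∈ B (n / 2)) (fun n => by
      rw [Nat.frequently_atTop_iff_infinite]
      exact infinite_of_mem (le_cofinite_of hp) (hBp (n / 2)))
  have hE : (range fun n => c (2 * n)) ∈ p ∨ (range fun n => c (2 * n))ᶜ ∈ p := by
    by_cases h : (range fun n => c (2 * n)) ∈ p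
    · exact Or.inl h
    · exact Or.inr (Ultrafilter.compl_mem_iff_notMem.2 h)
  rcases hE with hE | hE
  · obtain ⟨D, hD, hDE⟩ := hb _ hE
    rw [hBr] at hD
    obtain ⟨j, rfl⟩ := hD
    have h1 : c (2 * j + 1) ∈ B j := by
      have := hcB (2 * j + 1)
      have h2 : (2 * j + 1) / 2 = j := by omega
      rwa [h2] at this
    obtain ⟨m, hm⟩ := hDE h1
    have := hc.injective hm
    omega
  · obtain ⟨D, hD, hDE⟩ := hb _ hE
    rw [hBr] at hD
    obtain ⟨j, rfl⟩ := hD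
    have h1 : c (2 * j) ∈ B j := by
      have := hcB (2 * j)
      have h2 : (2 * j) / 2 = j := by omega
      rwa [h2] at this
    exact hDE h1 ⟨j, rfl⟩

theorem aleph0_lt_uNum : ℵ₀ < uNum := by
  have hne : {κ : Cardinal.{0} | ∃ (p : Ultrafilter ℕ) (ℬ : Set (Set ℕ)), (∀ n : ℕ, {n} ∉ p) ∧
      (∀ B ∈ ℬ, B ∈ p) ∧ (∀ X ∈ p, ∃ B ∈ ℬ, B ⊆ X) ∧ #ℬ = κ}.Nonempty := by
    refine ⟨_, hyperfilter ℕ, {X | X ∈ hyperfilter ℕ}, ?_, fun B hB => hB,
      fun X hX => ⟨X, hX, le_rfl⟩, rfl⟩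
    intro n
    exact Filter.notMem_hyperfilter_of_finite (finite_singleton n)
  obtain ⟨p, ℬ, hp, hℬ, hb, hk⟩ := csInf_mem hne
  have := aleph0_lt_base hp hℬ hb
  rw [hk] at this
  exact this

theorem uNum_le {p : Ultrafilter ℕ} {ℬ : Set (Set ℕ)} (hp : ∀ n : ℕ, {n} ∉ p)
    (hℬ : ∀ B ∈ ℬ, B ∈ p) (hb : ∀ X ∈ p, ∃ B ∈ ℬ, B ⊆ X) : uNum ≤ #ℬ :=
  csInf_le' ⟨p, ℬ, hp, hℬ, hb, rfl⟩

/-- An ultrafilter containing `X` contains a member of any finite family covering `X` up to a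
finite set. -/
theorem exists_mem_of_cover {x : Ultrafilter ℕ} (hx : (x : Filter ℕ) ≤ cofinite) {X : Set ℕ}
    (hX : X ∈ x) {F : Finset (Set ℕ)} (hF : (X \ ⋃₀ (F : Set (Set ℕ))).Finite) :
    ∃ B ∈ F, B ∈ x := by
  have h1 : ⋃₀ (F : Set (Set ℕ)) ∈ x := by
    by_contra hcon
    have h2 : (⋃₀ (F : Set (Set ℕ)))ᶜ ∈ x := Ultrafilter.compl_mem_iff_notMem.2 hcon
    exact infinite_of_mem hx (Filter.inter_mem hX h2) hF
  rw [Ultrafilter.finite_sUnion_mem_iff F.finite_toSet] at h1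
  obtain ⟨B, hB, hBx⟩ := h1
  exact ⟨B, hB, hBx⟩

/-- The size of the set of finite subsets. -/
theorem mk_finset_lt {α : Type} {κ : Cardinal.{0}} (hκ : ℵ₀ < κ) (hα : #α < κ) :
    #(Finset α) < κ := by
  rcases finite_or_infinite α with h | h
  · exact (lt_aleph0_of_finite (Finset α)).trans hκ
  · rw [mk_finset_of_infinite]
    exact hα

section

variable {𝒜 : Set (Set ℕ)} {A Z : Set ℕ}

/-- The ultrafilter of an unsplittable positive set. -/
theorem exists_private_ultrafilter (hZ : Pos 𝒜 A Z)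
    (hun : ∀ X Y, X ⊆ Z → Y ⊆ Z → Disjoint X Y → Pos 𝒜 A X → ¬ Pos 𝒜 A Y) :
    ∃ p : Ultrafilter ℕ, ∀ X, X ∈ p ↔ ¬ Pos 𝒜 A (Z \ X) := by
  let f : Filter ℕ :=
    { sets := {X | ¬ Pos 𝒜 A (Z \ X)}
      univ_sets := by
        intro h
        have := h ∅ (by simp)
        simp at this
      sets_of_superset := by
        intro X Y hX hXY h
        exact hX (h.mono (sdiff_subset_sdiff_right hXY))
      inter_sets := by
        intro X Y hX hY
        have h1 := not_pos_union hX hY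
        have h2 : (Z \ (X ∩ Y)) = (Z \ X) ∪ (Z \ Y) := sdiff_inter
        intro h3
        rw [h2] at h3
        exact h1 h3 }
  have hf : ∀ X, X ∈ f ↔ ¬ Pos 𝒜 A (Z \ X) := fun X => Iff.rfl
  have hult : ∀ s, sᶜ ∉ f ↔ s ∈ f := by
    intro s
    rw [hf, hf, not_not]
    constructor
    · intro h h2
      exact hun _ _ sdiff_subset sdiff_subset (by
        rw [Set.disjoint_left]
        rintro z ⟨_, hz1⟩ ⟨_, hz2⟩
        exact hz1 hz2) h h2
    · intro h
      by_contra h2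
      have h3 := not_pos_union h h2
      refine h3 (hZ.mono ?_)
      intro z hz
      by_cases hzs : z ∈ s
      · exact Or.inr ⟨hz, fun hn => hn hzs⟩
      · exact Or.inl ⟨hz, hzs⟩
  exact ⟨Ultrafilter.ofComplNotMemIff f hult, fun X => hf X⟩

/-- If `A` contains an unsplittable positive set then `A` belongs to a centered subfamily of
size at least `𝔲`. -/
theorem exists_centered (hA : A ∈ 𝒜) (hZA : Z ⊆ A) (hZ : Pos 𝒜 A Z)
    (hun : ∀ X Y, X ⊆ Z → Y ⊆ Z → Disjoint X Y → Pos 𝒜 A X → ¬ Pos 𝒜 A Y)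
    (hc : ∀ 𝒞, 𝒞 ⊆ 𝒜 → Centered 𝒞 → A ∈ 𝒞 → #𝒞 < uNum) : False := by
  classical
  obtain ⟨p, hp⟩ := exists_private_ultrafilter hZ hun
  have hpZ : Z ∈ p := by
    rw [hp, sdiff_self]
    intro h
    have := h ∅ (by simp)
    simp at this
  have hpn : ∀ n : ℕ, {n} ∉ p := by
    intro n hn
    rw [hp] at hn
    refine hn ?_
    intro F hF
    have h1 := (hZ F hF).sdiff (finite_singleton n)
    refine h1.mono ?_
    rintro z ⟨⟨hz, hzF⟩, hzn⟩
    exact ⟨⟨hz, hzn⟩, hzF⟩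
  -- a small set of members does not generate `p`
  have claim : ∀ 𝒮 : Set (Set ℕ), 𝒮 ⊆ 𝒜 \ {A} → #𝒮 < uNum →
      ∃ Y ∈ p, ∀ F : Finset (Set ℕ), (F : Set (Set ℕ)) ⊆ 𝒮 →
        ((Z \ Y) \ ⋃₀ (F : Set (Set ℕ))).Infinite := by
    intro 𝒮 h𝒮 hcard
    by_contra hcon
    push Not at hcon
    let g : Finset 𝒮 × ℕ → Set ℕ := fun q =>
      (Z \ ⋃₀ ((q.1.map (Function.Embedding.subtype _) : Finset (Set ℕ)) : Set (Set ℕ))) \
        {z | z < q.2}
    have h1 : uNum ≤ #(range g) := by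
      refine uNum_le hpn ?_ ?_
      · rintro _ ⟨⟨F, n⟩, rfl⟩
        have h2 : Z \ ⋃₀ ((F.map (Function.Embedding.subtype _) : Finset (Set ℕ)) :
            Set (Set ℕ)) ∈ p := by
          rw [hp, not_pos_iff]
          refine ⟨F.map (Function.Embedding.subtype _), ?_, ?_⟩
          · intro B hB
            rw [Finset.mem_coe, Finset.mem_map] at hB
            obtain ⟨B', _, rfl⟩ := hB
            exact h𝒮 B'.2
          · refine (finite_empty).subset ?_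
            rintro z ⟨⟨hz, hz2⟩, hz3⟩
            exact hz2 ⟨hz, hz3⟩
        have h3 : ({z | z < n} : Set ℕ)ᶜ ∈ (p : Filter ℕ) :=
          le_cofinite_of hpn (by simpa using finite_lt_nat n)
        exact Filter.inter_mem h2 h3
      · intro X hX
        obtain ⟨F, hF, hfin⟩ := hcon X hX
        obtain ⟨n, hn⟩ := hfin.bddAbove
        refine ⟨g ((F.subtype (· ∈ 𝒮)), n + 1), mem_range_self _, ?_⟩
        rintro z ⟨⟨hz, hzF⟩, hzn⟩
        by_contra hzX
        have h2 := Finset.subtype_map_of_mem (p := (· ∈ 𝒮)) (s := F)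
          (fun B hB => hF (Finset.mem_coe.2 hB))
        have h3 : z ≤ n := hn ⟨⟨hz, hzX⟩, by
          have h4 : z ∉ ⋃₀ (((F.subtype (· ∈ 𝒮)).map (Function.Embedding.subtype _) :
            Finset (Set ℕ)) : Set (Set ℕ)) := hzF
          rw [h2] at h4
          exact h4⟩
        exact hzn (Nat.lt_succ_of_le h3)
    have h2 : #(range g) ≤ #(Finset 𝒮 × ℕ) := mk_range_le
    have h3 : #(Finset 𝒮 × ℕ) < uNum := by
      rw [mk_prod, lift_id, lift_id]
      refine mul_lt_of_lt aleph0_lt_uNum.le (mk_finset_lt aleph0_lt_uNum hcard) ?_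
      rw [mk_nat]
      exact aleph0_lt_uNum
    exact absurd (h1.trans h2) (not_le.2 h3)
  -- members of `𝒜` in an ultrafilter containing `Z`
  have hsmall : ∀ x : Ultrafilter ℕ, (x : Filter ℕ) ≤ cofinite → Z ∈ x →
      #{B | B ∈ 𝒜 ∧ B ∈ x} < uNum := by
    intro x hx hZx
    refine hc _ (fun B hB => hB.1) ?_ ⟨hA, Filter.mem_of_superset hZx hZA⟩
    intro F hF
    refine infinite_of_mem hx ?_
    exact (Filter.sInter_mem F.finite_toSet).2 (fun B hB => (hF hB).2)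
  obtain ⟨x, hx, hr⟩ := exists_seq_of_forall_finset_exists
    (fun x : Ultrafilter ℕ => (x : Filter ℕ) ≤ cofinite ∧ Z ∈ x ∧ ∃ Y ∈ p, Z \ Y ∈ x)
    (fun x y => ∀ B ∈ 𝒜, B ≠ A → B ∈ x → B ∉ y) (by
      intro s hs
      let 𝒮 : Set (Set ℕ) := {B | (B ∈ 𝒜 ∧ B ≠ A) ∧ ∃ x ∈ s, B ∈ x}
      have h1 : #𝒮 < uNum := by
        have h2 : ∀ t : Finset (Ultrafilter ℕ), t ⊆ s →
            #{B | (B ∈ 𝒜 ∧ B ≠ A) ∧ ∃ x ∈ t, B ∈ x} < uNum := by
          intro t
          induction t using Finset.induction_on with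
          | empty =>
            intro _
            have h3 : {B : Set ℕ | (B ∈ 𝒜 ∧ B ≠ A) ∧
                ∃ x ∈ (∅ : Finset (Ultrafilter ℕ)), B ∈ x} = ∅ := by
              ext B
              simp
            rw [h3, mk_eq_zero]
            exact lt_trans aleph0_pos aleph0_lt_uNum
          | insert y t _ ih =>
            intro hts
            have h3 : {B : Set ℕ | (B ∈ 𝒜 ∧ B ≠ A) ∧ ∃ x ∈ insert y t, B ∈ x} ⊆
                {B | B ∈ 𝒜 ∧ B ∈ y} ∪ {B | (B ∈ 𝒜 ∧ B ≠ A) ∧ ∃ x ∈ t, B ∈ x} := by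
              rintro B ⟨hB, z, hz, hBz⟩
              rcases Finset.mem_insert.1 hz with rfl | hz
              · exact Or.inl ⟨hB.1, hBz⟩
              · exact Or.inr ⟨hB, z, hz, hBz⟩
            refine (mk_le_mk_of_subset h3).trans_lt ((mk_union_le _ _).trans_lt ?_)
            refine add_lt_of_lt aleph0_lt_uNum.le ?_ ?_
            · have h4 := hs y (hts (Finset.mem_insert_self y t))
              exact hsmall y h4.1 h4.2.1
            · exact ih (fun z hz => hts (Finset.mem_insert_of_mem hz))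
        exact h2 s (Finset.Subset.refl s)
      have h𝒮 : 𝒮 ⊆ 𝒜 \ {A} := fun B hB => ⟨hB.1.1, hB.1.2⟩
      obtain ⟨Y, hY, hYF⟩ := claim 𝒮 h𝒮 h1
      let g : Filter ℕ :=
        { sets := {X | ∃ F : Finset (Set ℕ), (F : Set (Set ℕ)) ⊆ 𝒮 ∧
            (((Z \ Y) \ ⋃₀ (F : Set (Set ℕ))) \ X).Finite}
          univ_sets := ⟨∅, by simp, by simp⟩
          sets_of_superset := by
            rintro X X' ⟨F, hF, hfin⟩ hXX
            exact ⟨F, hF, hfin.subset (sdiff_subset_sdiff_right hXX)⟩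
          inter_sets := by
            rintro X X' ⟨F, hF, hfin⟩ ⟨F', hF', hfin'⟩
            refine ⟨F ∪ F', ?_, (hfin.union hfin').subset ?_⟩
            · rw [Finset.coe_union]
              exact union_subset hF hF'
            · rintro z ⟨⟨hz, hzF⟩, hzX⟩
              have hz1 : z ∉ ⋃₀ (F : Set (Set ℕ)) := by
                rintro ⟨B, hB, hzB⟩
                exact hzF ⟨B, by simp [Finset.mem_coe.1 hB], hzB⟩
              have hz2 : z ∉ ⋃₀ (F' : Set (Set ℕ)) := by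
                rintro ⟨B, hB, hzB⟩
                exact hzF ⟨B, by simp [Finset.mem_coe.1 hB], hzB⟩
              by_cases hzx : z ∈ X
              · exact Or.inr ⟨⟨hz, hz2⟩, fun h => hzX ⟨hzx, h⟩⟩
              · exact Or.inl ⟨⟨hz, hz1⟩, hzx⟩ }
      have hg : ∀ X, X ∈ g ↔ ∃ F : Finset (Set ℕ), (F : Set (Set ℕ)) ⊆ 𝒮 ∧
            (((Z \ Y) \ ⋃₀ (F : Set (Set ℕ))) \ X).Finite := fun X => Iff.rfl
      have hgne : g.NeBot := by
        rw [Filter.neBot_iff, Ne, ← Filter.empty_mem_iff_bot, hg]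
        rintro ⟨F, hF, hfin⟩
        rw [sdiff_empty] at hfin
        exact hYF F hF hfin
      have hle := Ultrafilter.of_le g
      have hZY : Z \ Y ∈ Ultrafilter.of g := by
        refine hle ?_
        rw [hg]
        exact ⟨∅, by simp, by simp⟩
      refine ⟨Ultrafilter.of g, ⟨?_, Filter.mem_of_superset hZY sdiff_subset, Y, hY, hZY⟩, ?_⟩
      · refine hle.trans ?_
        intro X hX
        rw [hg]
        refine ⟨∅, by simp, ?_⟩
        rw [Filter.mem_cofinite] at hX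
        exact hX.subset (fun z hz => hz.2)
      · intro z hz B hB hBA hBz
        have hB𝒮 : B ∈ 𝒮 := ⟨⟨hB, hBA⟩, z, hz, hBz⟩
        have h2 : Bᶜ ∈ Ultrafilter.of g := by
          refine hle ?_
          rw [hg]
          refine ⟨{B}, by simpa using hB𝒮, ?_⟩
          refine (finite_empty).subset ?_
          rintro w ⟨⟨_, hw⟩, hwB⟩
          refine hw ⟨B, by simp, ?_⟩
          by_contra h3
          exact hwB h3
        exact Ultrafilter.compl_mem_iff_notMem.1 h2)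
  -- symmetric form
  have hr' : ∀ m n, m ≠ n → ∀ B ∈ 𝒜, B ≠ A → B ∈ x m → B ∉ x n := by
    intro m n hmn B hB hBA hBm hBn
    rcases lt_or_gt_of_ne hmn with hlt | hlt
    · exact hr m n hlt B hB hBA hBm hBn
    · exact hr n m hlt B hB hBA hBn hBm
  have hex : ∀ n, ∃ B, (B ∈ 𝒜 ∧ B ≠ A) ∧ B ∈ x n := by
    intro n
    obtain ⟨h1, h2, Y, hY, hZY⟩ := hx n
    rw [hp, not_pos_iff] at hY
    obtain ⟨F, hF, hfin⟩ := hY
    obtain ⟨B, hB, hBx⟩ := exists_mem_of_cover h1 hZY hfin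
    exact ⟨B, ⟨(hF hB).1, (hF hB).2⟩, hBx⟩
  choose B hB hBx using hex
  let W : ℕ → Set ℕ := fun n => {z | z ∈ Z ∧ z ∈ B n ∧ ∀ i < n, z ∉ B i}
  have hWx : ∀ n, W n ∈ x n := by
    intro n
    have h1 : (⋂ i ∈ Finset.range n, (B i)ᶜ) ∈ (x n : Filter ℕ) := by
      rw [Filter.biInter_finset_mem]
      intro i hi
      refine Ultrafilter.compl_mem_iff_notMem.2 ?_
      have hin : i ≠ n := by
        rw [Finset.mem_range] at hi
        omega
      exact hr' i n hin (B i) (hB i).1 (hB i).2 (hBx i)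
    refine Filter.mem_of_superset
      (Filter.inter_mem (Filter.inter_mem (hx n).2.1 (hBx n)) h1) ?_
    rintro z ⟨⟨hz1, hz2⟩, hz3⟩
    refine ⟨hz1, hz2, fun i hi hzi => ?_⟩
    simp only [mem_iInter, Finset.mem_range] at hz3
    exact hz3 i hi hzi
  have hWd : ∀ m n, m ≠ n → Disjoint (W m) (W n) := by
    intro m n hmn
    rw [Set.disjoint_left]
    rintro z ⟨_, hz1, hz2⟩ ⟨_, hz3, hz4⟩
    rcases lt_or_gt_of_ne hmn with hlt | hlt
    · exact hz4 m hlt hz1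
    · exact hz2 n hlt hz3
  let V : ℕ → Set ℕ := fun s => {z | ∃ k, z ∈ W (2 * k + s)}
  have hVZ : ∀ s, V s ⊆ Z := by
    rintro s z ⟨k, hk⟩
    exact hk.1
  have hVd : Disjoint (V 0) (V 1) := by
    rw [Set.disjoint_left]
    rintro z ⟨k, hk⟩ ⟨l, hl⟩
    exact (Set.disjoint_left.1 (hWd (2 * k + 0) (2 * l + 1) (by omega))) hk hl
  obtain ⟨s, hs⟩ : ∃ s, ¬ Pos 𝒜 A (V s) := by
    by_contra hcon
    push Not at hcon
    exact hun _ _ (hVZ 0) (hVZ 1) hVd (hcon 0) (hcon 1)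
  rw [not_pos_iff] at hs
  obtain ⟨F, hF, hfin⟩ := hs
  have hex : ∀ k, ∃ D : F, (D : Set ℕ) ∈ x (2 * k + s) := by
    intro k
    have h1 : V s ∈ x (2 * k + s) :=
      Filter.mem_of_superset (hWx (2 * k + s)) (fun z hz => ⟨k, hz⟩)
    obtain ⟨D, hD, hDx⟩ := exists_mem_of_cover (hx (2 * k + s)).1 h1 hfin
    exact ⟨⟨D, hD⟩, hDx⟩
  choose D hD using hex
  obtain ⟨k, l, hkl, hDD⟩ := Finite.exists_ne_map_eq_of_infinite D
  have h1 := hF (Finset.mem_coe.2 (D k).2)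
  refine hr' (2 * k + s) (2 * l + s) (by omega) (D k) h1.1 h1.2 (hD k) ?_
  rw [hDD]
  exact hD l

end

end Pool.Agent.Lib.MP_35a676_lc
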